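import Mathlib
import Pool.Agent.N718.DC.Stm
import Pool.Agent.N718.DC.Stm2
import Pool.Agent.N718.DC.Stm3
import Pool.Agent.N546.PN.Stm
import Pool.Agent.N546.PN.Stm2

/-!
# The Hasse principle for almost all diagonal quadric bundles (project DQ, helper424)

Definitions and statements of the parts. The parts with the final letter `G` are the parts of project DC
(helper718, `Pool.Agent.N718.DC.Stm2`) for an arbitrary finite index type `ι` and an arbitrary type of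
conditions `T : Typ ι e` (helper546).
-/

set_option autoImplicit false
set_option linter.all false

namespace Pool.Agent.U424.DQ

open Finset Pool.Agent.N718.DC
open Pool.Agent.N546.PN (Typ)

/-! ### General types -/

section general

variable {ι : Type} {e : ι → ℕ}

/-- No form vanishes at `(x, y)` and the values satisfy the condition `T`. -/
def PSG (T : Typ ι e) (c : (k : ι) → Fin (e k + 2) → ℤ) {K : Type} [Field K] (x y : K) : Prop :=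
  (∀ k, fmv (c k) x y ≠ 0) ∧ T.S K (fun k => fmv (c k) x y)

/-- Signs which satisfy the condition over the real numbers. -/
def SSG (T : Typ ι e) (s : ι → ℤ) : Prop :=
  (∀ k, s k = 1 ∨ s k = -1) ∧ T.S ℝ (fun k => (s k : ℝ))

/-- The condition is preserved by homomorphisms of fields. -/
def Fn (T : Typ ι e) : Prop :=
  ∀ (K L : Type) [Field K] [Field L] (f : K →+* L) (a : ι → K), T.S K a → T.S L (fun k => f (a k))

/-- The condition is satisfied by suitable signs. -/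
def One (T : Typ ι e) : Prop :=
  ∃ s : ι → ℤ, (∀ k, s k = 1 ∨ s k = -1) ∧ ∀ (K : Type) [Field K], T.S K (fun k => (s k : K))

/-- The arithmetic property of a type: at sample points with suitable symbols the condition holds over
the rational numbers. -/
def Ari {N : ℕ} (φ : ι ≃ Fin N) (T : Typ ι e) : Prop :=
  ∀ (M : ℕ) (f : ι → ℤ) (g : ι → ℕ) (s : ι → ℤ), 1 ≤ M → 2 ∣ M →
  (∀ k, g k ∣ M ∧ ∀ p : ℕ, p.Prime → p ∣ M → p ^ 3 ∣ M / g k) →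
  (∀ k, ∃ n : ℤ, f k = g k * n ∧ IsCoprime n (M : ℤ)) → SSG T s →
  (∀ (p : ℕ) [Fact p.Prime], p ∣ M → T.S ℚ_[p] (fun k => ((f k : ℤ) : ℚ_[p]))) →
  ∃ ε : ι → ι → ℤ, (∀ k k', ε k k' = 1 ∨ ε k k' = -1) ∧
    ∀ F : ι → ℤ, (∀ k, (M : ℤ) ∣ F k - f k) → ∀ P : ι → ℕ,
      (∀ k, (P k).Prime ∧ s k * F k = g k * P k) →
      (∀ k k', φ k < φ k' → jacobiSym (P k) (P k') = ε k k') →
      T.S ℚ (fun k => ((F k : ℤ) : ℚ))

/-- The local conditions: real points over points `(1, z)`, `z ∈ U`, and points over all `ℚ_p`. -/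
def LocG (T : Typ ι e) (U : Set ℝ) (c : (k : ι) → Fin (e k + 2) → ℤ) : Prop :=
  (∃ z ∈ U, PSG T c (1 : ℝ) z) ∧ ∀ p : Nat.Primes, ∃ x y : ℚ_[(p : ℕ)], PSG T c x y

/-- For all primitive local points at the primes of `S` there is a rational point whose base point is
close to them modulo `p ^ N` and lies in `U`. -/
def ApprG (T : Typ ι e) (U : Set ℝ) (S : Finset Nat.Primes) (N : ℕ)
    (c : (k : ι) → Fin (e k + 2) → ℤ) : Prop :=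
  ∀ X Y : (p : Nat.Primes) → ℚ_[(p : ℕ)], (∀ p ∈ S, max ‖X p‖ ‖Y p‖ = 1 ∧ PSG T c (X p) (Y p)) →
    ∃ x y : ℤ, 0 < x ∧ (y : ℝ) / x ∈ U ∧ PSG T c (x : ℚ) (y : ℚ) ∧
      ∀ p ∈ S, ‖X p - (x : ℚ_[(p : ℕ)])‖ ≤ (((p : ℕ) : ℝ) ^ N)⁻¹ ∧
        ‖Y p - (y : ℚ_[(p : ℕ)])‖ ≤ (((p : ℕ) : ℝ) ^ N)⁻¹

end general

open Classical in
/-- Part AMTG: part AMT for families indexed by a finite type with an enumeration. -/
def S_AMTG : Prop := ∀ (ι : Type) [Fintype ι] [DecidableEq ι] (N : ℕ) (φ : ι ≃ Fin N) (e : ι → ℕ),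
  ∃ C : ℝ, 0 ≤ C ∧ ∀ W M : ℕ, 1 ≤ W → 1 ≤ M →
  2 ∣ M → (∀ p : ℕ, p.Prime → p ≤ W → p ∣ M) → (∀ p : ℕ, p.Prime → p ∣ M → p ≤ W) →
  ∀ (a₀ a₁ : ℤ) (α β : ℝ), α < β → ∀ (γ : (k : ι) → Fin (e k + 2) → ℤ)
    (g : ι → ℕ) (s : ι → ℤ) (ε : ι → ι → ℤ),
    (∀ k, s k = 1 ∨ s k = -1) →
    (∀ k k', ε k k' = 1 ∨ ε k k' = -1) →
    (∀ k, g k ∣ M ∧ ∀ p : ℕ, p.Prime → p ∣ M → p ∣ M / g k) →
    (∀ k, ∃ n : ℤ, fm (γ k) a₀ a₁ = g k * n ∧ IsCoprime n (M : ℤ)) →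
  ∃ H₀ : ℕ, ∀ H : ℕ, H₀ ≤ H →
    (((BXI e H).filter (fun c => (∀ k j, (M : ℤ) ∣ c k j - γ k j) ∧
      (∀ k, ∀ z : ℝ, α < z → z < β → 0 < (s k : ℝ) * fmv (c k) 1 z) ∧
      ¬ ∃ x y : ℤ, 0 < x ∧ (M : ℤ) ∣ x - a₀ ∧ (M : ℤ) ∣ y - a₁ ∧ α * x < y ∧ (y : ℝ) < β * x ∧
        ∃ P : ι → ℕ, (∀ k, (P k).Prime ∧ s k * fm (c k) x y = g k * P k) ∧
          ∀ k k', φ k < φ k' → jacobiSym (P k) (P k') = ε k k')).card : ℝ) ≤
      C / W * (((2 * H + 1 : ℕ) : ℝ) / M) ^ ncI e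

open Classical in
/-- Part CLSG: rational points for almost all families in a residue class. -/
def S_CLSG : Prop := ∀ (ι : Type) [Fintype ι] [DecidableEq ι] (N : ℕ) (φ : ι ≃ Fin N) (e : ι → ℕ)
  (T : Typ ι e), Ari φ T → ∃ C : ℝ, 0 ≤ C ∧ ∀ W M : ℕ, 1 ≤ W → 1 ≤ M →
  2 ∣ M → (∀ p : ℕ, p.Prime → p ≤ W → p ∣ M) → (∀ p : ℕ, p.Prime → p ∣ M → p ≤ W) →
  ∀ (a₀ a₁ : ℤ) (α β : ℝ), α < β → ∀ (γ : (k : ι) → Fin (e k + 2) → ℤ)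
    (s : ι → ℤ), SSG T s →
    (∀ p : ℕ, p.Prime → p ∣ M → 3 ≤ padicValNat p M ∧
      ∀ k, ¬ ((p : ℤ) ^ (padicValNat p M - 3 + 1) ∣ fm (γ k) a₀ a₁)) →
    (∀ (p : ℕ) [Fact p.Prime], p ∣ M → PSG T γ ((a₀ : ℤ) : ℚ_[p]) ((a₁ : ℤ) : ℚ_[p])) →
  ∃ H₀ : ℕ, ∀ H : ℕ, H₀ ≤ H →
    (((BXI e H).filter (fun c => (∀ k j, (M : ℤ) ∣ c k j - γ k j) ∧
      (∀ k, ∀ z : ℝ, α < z → z < β → 0 < (s k : ℝ) * fmv (c k) 1 z) ∧
      ¬ ∃ x y : ℤ, 0 < x ∧ (M : ℤ) ∣ x - a₀ ∧ (M : ℤ) ∣ y - a₁ ∧ α * x < y ∧ (y : ℝ) < β * x ∧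
        PSG T c (x : ℚ) (y : ℚ))).card : ℝ) ≤
      C / W * (((2 * H + 1 : ℕ) : ℝ) / M) ^ ncI e

open Classical in
/-- Part REALG: for most of the families with real points in `U` the forms have constant suitable signs
on one of finitely many intervals. -/
def S_REALG : Prop := ∀ (ι : Type) [Fintype ι] [DecidableEq ι] (e : ι → ℕ) (T : Typ ι e) (U : Set ℝ),
  IsOpen U → ∀ η : ℝ, 0 < η →
  ∃ (Z : Finset (ℝ × ℝ)) (H₀ : ℕ), (∀ w ∈ Z, w.1 < w.2 ∧ Set.Icc w.1 w.2 ⊆ U) ∧ ∀ H : ℕ, H₀ ≤ H →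
    (((BXI e H).filter (fun c => (∃ z ∈ U, PSG T c (1 : ℝ) z) ∧
      ¬ ∃ w ∈ Z, ∃ s : ι → ℤ, SSG T s ∧
        ∀ k, ∀ z : ℝ, w.1 < z → z < w.2 → 0 < (s k : ℝ) * fmv (c k) 1 z)).card : ℝ) ≤
      η * ((2 * H + 1 : ℕ) : ℝ) ^ ncI e

open Classical in
/-- Part GLUEG: the local points are replaced by one integral point. -/
def S_GLUEG : Prop := ∀ (ι : Type) [Fintype ι] [DecidableEq ι] (e : ι → ℕ) (T : Typ ι e)
  (U : Set ℝ) (S : Finset Nat.Primes) (N W : ℕ) (n : ℕ → ℕ) (M : ℕ),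
    M = ∏ p ∈ (Icc 1 W).filter Nat.Prime, p ^ (3 * n p + 14) → (∀ p ∈ S, (p : ℕ) ≤ W) →
    (∀ p, N ≤ n p) → ∀ c : (k : ι) → Fin (e k + 2) → ℤ,
    (∀ p : ℕ, p.Prime → p ≤ W → ¬ padBad p (n p) c) → LocG T U c →
    ∀ X Y : (p : Nat.Primes) → ℚ_[(p : ℕ)], (∀ p ∈ S, max ‖X p‖ ‖Y p‖ = 1 ∧ PSG T c (X p) (Y p)) →
    ∃ a₀ a₁ : ℤ, (∀ p ∈ S, ‖X p - (a₀ : ℚ_[(p : ℕ)])‖ ≤ (((p : ℕ) : ℝ) ^ N)⁻¹ ∧
        ‖Y p - (a₁ : ℚ_[(p : ℕ)])‖ ≤ (((p : ℕ) : ℝ) ^ N)⁻¹) ∧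
      ∀ γ : (k : ι) → Fin (e k + 2) → ℤ, (∀ k j, (M : ℤ) ∣ c k j - γ k j) →
        (∀ p : ℕ, p.Prime → p ∣ M → 3 ≤ padicValNat p M ∧
          ∀ k, ¬ ((p : ℤ) ^ (padicValNat p M - 3 + 1) ∣ fm (γ k) a₀ a₁)) ∧
        (∀ (p : ℕ) [Fact p.Prime], p ∣ M → PSG T γ ((a₀ : ℤ) : ℚ_[p]) ((a₁ : ℤ) : ℚ_[p]))

open Classical in
/-- Part MAINAG: approximation for almost all families with points everywhere locally. -/
def S_MAINAG : Prop := ∀ (ι : Type) [Fintype ι] [DecidableEq ι] (m : ℕ) (φ : ι ≃ Fin m) (e : ι → ℕ)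
  (T : Typ ι e), Ari φ T →
  ∀ U : Set ℝ, IsOpen U → ∀ (S : Finset Nat.Primes) (N : ℕ) (η : ℝ), 0 < η → ∃ H₀ : ℕ, ∀ H : ℕ,
    H₀ ≤ H → (((BXI e H).filter (fun c => LocG T U c ∧ ¬ ApprG T U S N c)).card : ℝ) ≤
      η * ((2 * H + 1 : ℕ) : ℝ) ^ ncI e

open Classical in
/-- Part MAINBG: a positive proportion of the families has points everywhere locally. -/
def S_MAINBG : Prop := ∀ (ι : Type) [Fintype ι] [DecidableEq ι] (m : ℕ) (φ : ι ≃ Fin m) (e : ι → ℕ)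
  (T : Typ ι e), Ari φ T → Fn T → One T → ∀ U : Set ℝ, IsOpen U → U.Nonempty →
  ∃ c₀ : ℝ, 0 < c₀ ∧ ∃ H₀ : ℕ, ∀ H : ℕ, H₀ ≤ H →
    c₀ * ((2 * H + 1 : ℕ) : ℝ) ^ ncI e ≤ (((BXI e H).filter (fun c => LocG T U c)).card : ℝ)

/-! ### Diagonal quadrics -/

/-- The quadric `∑ A_l u_l² = 0` has a point over `K`. -/
def SolM {m : ℕ} {K : Type} [Field K] (A : Fin m → K) : Prop :=
  ∃ u : Fin m → K, u ≠ 0 ∧ ∑ l, A l * u l ^ 2 = 0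

/-- The quadrics `∑ a_{i,l} u_l² = 0` have points over `K`. -/
def CM {r : ℕ} {m : Fin r → ℕ} {K : Type} [Field K] (a : (Σ i : Fin r, Fin (m i)) → K) : Prop :=
  ∀ i, SolM (fun l => a ⟨i, l⟩)

theorem SolM.mul {m : ℕ} {K : Type} [Field K] {A : Fin m → K} (h : SolM A) (z : Fin m → K)
    (hz : ∀ l, z l ≠ 0) (t : K) : SolM (fun l => t * (A l * z l ^ 2)) := by
  obtain ⟨u, h1, h2⟩ := h
  refine ⟨fun l => u l / z l, ?_, ?_⟩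
  · intro h
    apply h1
    funext l
    have h3 := congrFun h l
    simp only [Pi.zero_apply, div_eq_zero_iff, hz l, or_false] at h3
    exact h3
  · have : ∀ l, t * (A l * z l ^ 2) * (u l / z l) ^ 2 = t * (A l * u l ^ 2) := by
      intro l
      have := hz l
      field_simp
    simp only [this, ← Finset.mul_sum, h2, mul_zero]

/-- The type of the fibre products of diagonal quadric bundles. -/
def typM {r : ℕ} {m : Fin r → ℕ} (hm : ∀ i, 3 ≤ m i) (e : (Σ i : Fin r, Fin (m i)) → ℕ)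
    (he : ∀ i l l', e ⟨i, l⟩ % 2 = e ⟨i, l'⟩ % 2) (hun : Pool.Agent.N546.PN.S_UN3) :
    Typ (Σ i : Fin r, Fin (m i)) e where
  S := fun K _ a => CM a
  sq := by
    intro K _ a z hz h i
    have h1 := (h i).mul (fun l => z ⟨i, l⟩) (fun l => hz _) 1
    simpa only [one_mul] using h1
  sc := by
    intro K _ a t ht h i
    have h0 : 0 < m i := lt_of_lt_of_le (by norm_num) (hm i)
    have key : ∀ l : Fin (m i), t ^ (e ⟨i, l⟩ + 1) =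
        t ^ (e ⟨i, ⟨0, h0⟩⟩ % 2 + 1) * (t ^ (e ⟨i, l⟩ / 2)) ^ 2 := by
      intro l
      rw [← pow_mul, ← pow_add]
      congr 1
      have := he i l ⟨0, h0⟩
      omega
    have h1 := (h i).mul (fun l => t ^ (e ⟨i, l⟩ / 2)) (fun l => pow_ne_zero _ ht)
      (t ^ (e ⟨i, ⟨0, h0⟩⟩ % 2 + 1))
    have h2 : (fun l => t ^ (e ⟨i, ⟨0, h0⟩⟩ % 2 + 1) * (a ⟨i, l⟩ * (t ^ (e ⟨i, l⟩ / 2)) ^ 2)) =
        fun l => t ^ (e ⟨i, l⟩ + 1) * a ⟨i, l⟩ := by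
      funext l
      rw [key l]
      ring
    rw [h2] at h1
    exact h1
  un := by
    intro p _ hp a ha i
    have h0 : 0 < m i := lt_of_lt_of_le (by norm_num) (hm i)
    have h1 : 1 < m i := lt_of_lt_of_le (by norm_num) (hm i)
    have h2 : 2 < m i := lt_of_lt_of_le (by norm_num) (hm i)
    obtain ⟨u, v, w, hne, he⟩ := hun p hp (a ⟨i, ⟨0, h0⟩⟩) (a ⟨i, ⟨1, h1⟩⟩) (-a ⟨i, ⟨2, h2⟩⟩) (ha _)
      (ha _) (by rw [norm_neg]; exact ha _)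
    set x : Fin (m i) → ℚ_[p] := fun l => if (l : ℕ) = 0 then u else if (l : ℕ) = 1 then v else
      if (l : ℕ) = 2 then w else 0 with hx
    have x0 : x ⟨0, h0⟩ = u := by simp [hx]
    have x1 : x ⟨1, h1⟩ = v := by simp [hx]
    have x2 : x ⟨2, h2⟩ = w := by simp [hx]
    refine ⟨x, ?_, ?_⟩
    · intro h
      rcases hne with h3 | h3 | h3
      · exact h3 (by rw [← x0, h]; rfl)
      · exact h3 (by rw [← x1, h]; rfl)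
      · exact h3 (by rw [← x2, h]; rfl)
    · have hs : ∑ l : Fin (m i), a ⟨i, l⟩ * x l ^ 2 =
          ∑ l ∈ ({⟨0, h0⟩, ⟨1, h1⟩, ⟨2, h2⟩} : Finset (Fin (m i))), a ⟨i, l⟩ * x l ^ 2 := by
        symm
        apply Finset.sum_subset (Finset.subset_univ _)
        intro l _ hl
        simp only [Finset.mem_insert, Finset.mem_singleton, not_or, Fin.ext_iff] at hl
        simp [hx, hl.1, hl.2.1, hl.2.2]
      rw [hs, Finset.sum_insert (by simp [Fin.ext_iff]), Finset.sum_insert (by simp [Fin.ext_iff]),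
        Finset.sum_singleton, x0, x1, x2]
      linear_combination he

/-- Part HMM: the theorem of Hasse and Minkowski for diagonal forms in at least four variables. -/
def S_HMM : Prop := ∀ m : ℕ, 4 ≤ m → ∀ A : Fin m → ℤ, (∀ l, A l ≠ 0) → SolM (fun l => (A l : ℝ)) →
  (∀ (p : ℕ) [Fact p.Prime], SolM (fun l => (A l : ℚ_[p]))) → SolM (fun l => (A l : ℚ))

/-- Part ARIM: the quadric in at least four variables over a sample point. -/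
def S_ARIM : Prop := ∀ (m : ℕ), 4 ≤ m → ∀ (M : ℕ) (f : Fin m → ℤ) (g : Fin m → ℕ) (s : Fin m → ℤ),
  1 ≤ M → 2 ∣ M →
  (∀ l, g l ∣ M ∧ ∀ p : ℕ, p.Prime → p ∣ M → p ^ 3 ∣ M / g l) →
  (∀ l, ∃ n : ℤ, f l = g l * n ∧ IsCoprime n (M : ℤ)) → (∀ l, s l = 1 ∨ s l = -1) →
  SolM (fun l => (s l : ℝ)) →
  (∀ (p : ℕ) [Fact p.Prime], p ∣ M → SolM (fun l => ((f l : ℤ) : ℚ_[p]))) →
  ∀ F : Fin m → ℤ, (∀ l, (M : ℤ) ∣ F l - f l) → ∀ P : Fin m → ℕ,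
    (∀ l, (P l).Prime ∧ s l * F l = g l * P l) → (∀ l l', l < l' → P l ≠ P l') →
    SolM (fun l => ((F l : ℤ) : ℚ))

/-- Part TYPM: the type of the diagonal quadric bundles has all the properties. -/
def S_TYPM : Prop := ∀ (r : ℕ) (m : Fin r → ℕ) (hm : ∀ i, 3 ≤ m i)
  (e : (Σ i : Fin r, Fin (m i)) → ℕ) (he : ∀ i l l', e ⟨i, l⟩ % 2 = e ⟨i, l'⟩ % 2)
  (hun : Pool.Agent.N546.PN.S_UN3),
  Ari (finSigmaFinEquiv : (Σ i : Fin r, Fin (m i)) ≃ Fin (∑ i, m i)) (typM hm e he hun) ∧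
    Fn (typM hm e he hun) ∧ One (typM hm e he hun)

/-- Part FILLM: small changes of the vanishing coefficients of a diagonal quadric with a point. -/
def S_FILLM (K : Type) [NontriviallyNormedField K] : Prop := ∀ (m : ℕ), 3 ≤ m → ∀ a : Fin m → K,
  SolM a → ∀ δ : ℝ, 0 < δ → ∃ w : Fin m → K, (∀ k, w k ≠ 0) ∧ (∀ k, a k ≠ 0 → w k = a k) ∧
    (∀ k, a k = 0 → ‖w k‖ < δ) ∧ SolM w

/-- Part LOCTM: a common value of `<a, b>` and `<-C_0, -C_1, …>` over `ℚ_p`, up to squares. -/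
def S_LOCTM : Prop := ∀ (p : ℕ) [Fact p.Prime] (n : ℕ) (a b : ℤ) (C : Fin n → ℤ), 1 ≤ n → a ≠ 0 →
  b ≠ 0 → (∀ l, C l ≠ 0) →
  SolM (fun l => (((Fin.cons a (Fin.cons b C : Fin (n + 1) → ℤ) : Fin (n + 2) → ℤ) l : ℤ) : ℚ_[p])) →
  ∃ (k : ℕ) (u : ℤ), ¬ (p : ℤ) ∣ u ∧ ∀ t : ℤ, (p : ℤ) ^ (k + 3) ∣ t - (p : ℤ) ^ k * u →
    Sol (a : ℚ_[p]) (b : ℚ_[p]) (t : ℚ_[p]) ∧
    SolM (fun l => (((Fin.cons t C : Fin (n + 1) → ℤ) l : ℤ) : ℚ_[p]))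

/-- Part TEX: a common value with one auxiliary prime. -/
def S_TEX : Prop := ∀ (n : ℕ) (a b : ℤ) (C : Fin n → ℤ), 2 ≤ n → a ≠ 0 → b ≠ 0 → (∀ l, C l ≠ 0) →
  SolM (fun l => (((Fin.cons a (Fin.cons b C : Fin (n + 1) → ℤ) : Fin (n + 2) → ℤ) l : ℤ) : ℝ)) →
  (∀ (p : ℕ) [Fact p.Prime], SolM
    (fun l => (((Fin.cons a (Fin.cons b C : Fin (n + 1) → ℤ) : Fin (n + 2) → ℤ) l : ℤ) : ℚ_[p]))) →
  ∃ (t : ℤ) (q : ℕ), t ≠ 0 ∧ q.Prime ∧ q ≠ 2 ∧ (∀ l, ¬ (q : ℤ) ∣ C l) ∧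
    Sol (a : ℝ) (b : ℝ) (t : ℝ) ∧ SolM (fun l => (((Fin.cons t C : Fin (n + 1) → ℤ) l : ℤ) : ℝ)) ∧
    ∀ (p : ℕ) [Fact p.Prime], p ≠ q → Sol (a : ℚ_[p]) (b : ℚ_[p]) (t : ℚ_[p]) ∧
      SolM (fun l => (((Fin.cons t C : Fin (n + 1) → ℤ) l : ℤ) : ℚ_[p]))

end Pool.Agent.U424.DQ
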