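import Mathlib
import Pool.Agent.N718.DC.All
import Pool.Agent.N546.PN.All
import Pool.Agent.U424.DQ.Stm
import Pool.Agent.U571.DQ.AMTG
import Pool.Agent.U465.DQ.CLSG
import Pool.Agent.U186.DQ.REALG
import Pool.Agent.U863.DQ.GLUEG
import Pool.Agent.U784.DQ.MAINAG
import Pool.Agent.U882.DQ.MAINBG
import Pool.Agent.U293.DQ.LOCTM
import Pool.Agent.U373.DQ.TEX
import Pool.Agent.U113.DQ.HMM
import Pool.Agent.U460.DQ.ARIM
import Pool.Agent.U333.DQ.TYPM
import Pool.Agent.U446.DQ.FILLM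

/-!
# Assembly of project DQ (helper424)
-/

set_option autoImplicit false

namespace Pool.Agent.U424.DQ

theorem amtg : S_AMTG := Pool.Agent.U571.DQ.amtg_ Pool.Agent.N718.DC.amt
theorem clsg : S_CLSG := Pool.Agent.U465.DQ.clsg_ amtg
theorem realg : S_REALG := Pool.Agent.U186.DQ.realg_ Pool.Agent.N718.DC.ortho
theorem glueg : S_GLUEG := Pool.Agent.U863.DQ.glueg_ Pool.Agent.N718.DC.padt
theorem mainag : S_MAINAG := Pool.Agent.U784.DQ.mainag_ clsg Pool.Agent.N718.DC.padc realg glueg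
theorem mainbg : S_MAINBG := Pool.Agent.U882.DQ.mainbg_ clsg Pool.Agent.N718.DC.pos'
theorem loctm : S_LOCTM := Pool.Agent.U293.DQ.loctm_
theorem tex : S_TEX := Pool.Agent.U373.DQ.tex_ loctm
theorem hmm : S_HMM := Pool.Agent.U113.DQ.hmm_ tex
theorem arim : S_ARIM := Pool.Agent.U460.DQ.arim_ hmm
theorem typm : S_TYPM := Pool.Agent.U333.DQ.typm_ Pool.Agent.N718.DC.ari arim
theorem fillm (K : Type) [NontriviallyNormedField K] : S_FILLM K := Pool.Agent.U446.DQ.fillm_ K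

end Pool.Agent.U424.DQ
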