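import Mathlib
import Pool.Agent.U424.DQ.Stm
import Pool.Agent.N546.PN.All
import Pool.Agent.N380.PN.Den
import Pool.Agent.N546.PN.Fin

/-!
# Diagonal quadric bundles over projective spaces: end of project DQ (helper424)
-/

set_option autoImplicit false
set_option linter.all false

namespace Pool.Agent.U424.DQ

open Finset Filter Topology
open Pool.Agent.N546.PN (Typ Mon val dval ic bx sz Pt LocN GlobN Smo HPN PPN HP1 PP1 Pt1 Loc1 Glob1
  bval sz1 bx1 S_UN3 un3 S_SQO S_OPN sqo_real sqo_padic opn_real opn_padic card_bx bval_eq)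

section quadric

variable {n r : ℕ} {m : Fin r → ℕ} {e : (Σ i : Fin r, Fin (m i)) → ℕ}

/-- a point of the fibre product -/
def IsP {K : Type} [Field K] (c : (k : Σ i : Fin r, Fin (m i)) → Mon n (e k + 1) → K)
    (x : Fin (n + 1) → K) (z : (i : Fin r) → Fin (m i) → K) : Prop :=
  x ≠ 0 ∧ ∀ i, z i ≠ 0 ∧ ∑ l, val (c ⟨i, l⟩) x * z i l ^ 2 = 0

/-- the differentials are independent -/
def SmK {K : Type} [Field K] (c : (k : Σ i : Fin r, Fin (m i)) → Mon n (e k + 1) → K) : Prop :=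
  ∀ (x : Fin (n + 1) → K) (z : (i : Fin r) → Fin (m i) → K), IsP c x z → ∀ t : Fin r → K, t ≠ 0 →
      (∃ a, ∑ i, t i * ∑ l, dval (c ⟨i, l⟩) a x * z i l ^ 2 ≠ 0) ∨
      ∃ i l, t i * (val (c ⟨i, l⟩) x * z i l) ≠ 0

lemma smK_of_smo {K : Type} [Field K] (c : (k : Σ i : Fin r, Fin (m i)) → Mon n (e k + 1) → K)
    (h : Smo c) : SmK c := by
  intro x z hp t ht
  by_contra hcon
  rw [not_or, not_exists, not_exists] at hcon
  obtain ⟨h1, h2⟩ := hcon
  have h2' : ∀ i l, t i * (val (c ⟨i, l⟩) x * z i l) = 0 := by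
    intro i l
    by_contra h3
    exact h2 i ⟨l, h3⟩
  have h1' : ∀ a, ∑ i, t i * ∑ l, dval (c ⟨i, l⟩) a x * z i l ^ 2 = 0 := by
    intro a
    by_contra h3
    exact h1 a h3
  obtain ⟨i0, hi0⟩ : ∃ i, t i ≠ 0 := by
    by_contra h3
    push Not at h3
    exact ht (funext h3)
  obtain ⟨l0, hl0⟩ : ∃ l, z i0 l ≠ 0 := by
    by_contra h3
    push Not at h3
    exact (hp.2 i0).1 (funext h3)
  have hl : (fun k : Σ i : Fin r, Fin (m i) => t k.1 * z k.1 k.2 ^ 2) ≠ 0 := by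
    intro h3
    have h4 := congrFun h3 ⟨i0, l0⟩
    exact (mul_ne_zero hi0 (pow_ne_zero 2 hl0)) h4
  obtain ⟨a, ha⟩ := h x _ hp.1 hl (by
    rintro ⟨i, l⟩ hk
    have h3 := h2' i l
    have h4 : t i ≠ 0 := fun h5 => hk (by simp [h5])
    have h5 : z i l ≠ 0 := fun h6 => hk (by simp [h6])
    rcases mul_eq_zero.1 h3 with h6 | h6
    · exact absurd h6 h4
    · rcases mul_eq_zero.1 h6 with h7 | h7
      · exact h7
      · exact absurd h7 h5)
  apply ha
  rw [← h1' a, Fintype.sum_sigma]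
  refine Finset.sum_congr rfl fun i _ => ?_
  rw [Finset.mul_sum]
  refine Finset.sum_congr rfl fun l _ => ?_
  ring

variable (hm : ∀ i, 3 ≤ m i) (he : ∀ i l l', e ⟨i, l⟩ % 2 = e ⟨i, l'⟩ % 2)

lemma isP_of_pt {K : Type} [Field K] [NeZero (1 : K)]
    (c : (k : Σ i : Fin r, Fin (m i)) → Mon n (e k + 1) → K)
    (h : ∃ x, Pt (typM hm e he un3) c x) : ∃ x z, IsP c x z := by
  obtain ⟨x, hx1, hx2⟩ := h
  have hx2' : CM (fun k => val (c k) x) := hx2
  by_cases h0 : x = 0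
  · by_cases hr : r = 0
    · subst hr
      refine ⟨fun _ => 1, fun i => i.elim0, ?_, fun i => i.elim0⟩
      intro h3
      have := congrFun h3 0
      exact one_ne_zero this
    · exfalso
      have h3 := hx1 ⟨⟨0, Nat.pos_of_ne_zero hr⟩, ⟨0, lt_of_lt_of_le (by norm_num) (hm _)⟩⟩
      apply h3
      subst h0
      unfold Pool.Agent.N546.PN.val
      refine Finset.sum_eq_zero fun m' _ => ?_
      have h4 := (Finset.mem_piAntidiag.1 m'.2).1
      obtain ⟨i, _, hi⟩ : ∃ i ∈ (Finset.univ : Finset (Fin (n + 1))), m'.1 i ≠ 0 := by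
        by_contra h5
        push Not at h5
        rw [Finset.sum_eq_zero h5] at h4
        omega
      rw [Finset.prod_eq_zero (Finset.mem_univ i), mul_zero]
      simp [hi]
  · choose u h1 h2 using hx2'
    exact ⟨x, u, h0, fun i => ⟨h1 i, h2 i⟩⟩

lemma pt_of_isP {K : Type} [NontriviallyNormedField K] (hF : S_FILLM K) (h1 : S_SQO K) (h2 : S_OPN K)
    (c : (k : Σ i : Fin r, Fin (m i)) → Mon n (e k + 1) → K) (hs : Smo c)
    (h : ∃ x z, IsP c x z) : ∃ x, Pt (typM hm e he un3) c x := by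
  obtain ⟨x, z, hx, hz⟩ := h
  refine Pool.Agent.N380.PN.den_ K h1 h2 n (Σ i : Fin r, Fin (m i)) e (typM hm e he un3) c x hx hs ?_
  intro δ hδ
  have h3 : ∀ i, SolM (fun l => val (c ⟨i, l⟩) x) := fun i => ⟨z i, (hz i).1, (hz i).2⟩
  choose w w1 w2 w3 w4 using fun i => hF (m i) (hm i) _ (h3 i) δ hδ
  exact ⟨fun k => w k.1 k.2, fun k => w1 k.1 k.2, fun k => w2 k.1 k.2, fun k => w3 k.1 k.2, w4⟩

theorem pt1_ps (c : (k : Σ i : Fin r, Fin (m i)) → Fin (e k + 2) → ℤ) {K : Type} [Field K] (x y : K) :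
    Pt1 (typM hm e he un3) c x y ↔ PSG (typM hm e he un3) c x y := by
  unfold Pt1 PSG
  simp only [bval_eq]

theorem loc_of_loc1 (c : (k : Σ i : Fin r, Fin (m i)) → Fin (e k + 2) → ℤ)
    (h : Loc1 (typM hm e he un3) c) : LocG (typM hm e he un3) Set.univ c := by
  obtain ⟨⟨y, hz⟩, hp⟩ := h
  refine ⟨⟨y, Set.mem_univ _, (pt1_ps hm he c _ _).1 hz⟩, fun p => ?_⟩
  haveI : Fact (p : ℕ).Prime := ⟨p.2⟩
  obtain ⟨x, y, hxy⟩ := hp p
  exact ⟨x, y, (pt1_ps hm he c _ _).1 hxy⟩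

theorem loc1_of_loc (c : (k : Σ i : Fin r, Fin (m i)) → Fin (e k + 2) → ℤ)
    (h : LocG (typM hm e he un3) Set.univ c) : Loc1 (typM hm e he un3) c := by
  obtain ⟨⟨y, _, hz⟩, hp⟩ := h
  refine ⟨⟨y, (pt1_ps hm he c _ _).2 hz⟩, fun p hp' => ?_⟩
  obtain ⟨x, y, hxy⟩ := hp ⟨p, hp'.out⟩
  exact ⟨x, y, (pt1_ps hm he c _ _).2 hxy⟩

theorem glob_of_appr (c : (k : Σ i : Fin r, Fin (m i)) → Fin (e k + 2) → ℤ)
    (h : ApprG (typM hm e he un3) Set.univ ∅ 0 c) : Glob1 (typM hm e he un3) c := by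
  obtain ⟨x, y, _, _, h1, _⟩ := h (fun _ => 0) (fun _ => 0)
    (fun p hp => absurd hp (Finset.notMem_empty p))
  exact ⟨(x : ℚ), (y : ℚ), (pt1_ps hm he c _ _).2 h1⟩

theorem hp1_M (hA : S_MAINAG) (hT : S_TYPM) : HP1 (typM hm e he un3) := by
  classical
  intro η hη
  obtain ⟨H₀, h⟩ := hA (Σ i : Fin r, Fin (m i)) (∑ i, m i) finSigmaFinEquiv e (typM hm e he un3)
    (hT r m hm e he un3).1 Set.univ isOpen_univ ∅ 0 η hη
  refine ⟨H₀, fun H hH => ?_⟩
  have h1 : sz1 e = Pool.Agent.N718.DC.ncI e := rfl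
  rw [h1]
  refine le_trans ?_ (h H hH)
  rw [Nat.cast_le]
  refine Finset.card_le_card ?_
  intro c hc
  rw [Finset.mem_filter] at hc ⊢
  refine ⟨hc.1, loc_of_loc1 hm he c hc.2.1, fun hA => hc.2.2 (glob_of_appr hm he c hA)⟩

theorem pp1_M (hB : S_MAINBG) (hT : S_TYPM) : PP1 (typM hm e he un3) := by
  classical
  obtain ⟨c₀, hc₀, H₀, h⟩ := hB (Σ i : Fin r, Fin (m i)) (∑ i, m i) finSigmaFinEquiv e
    (typM hm e he un3) (hT r m hm e he un3).1 (hT r m hm e he un3).2.1 (hT r m hm e he un3).2.2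
    Set.univ isOpen_univ ⟨0, Set.mem_univ _⟩
  refine ⟨c₀, hc₀, H₀, fun H hH => ?_⟩
  have h1 : sz1 e = Pool.Agent.N718.DC.ncI e := rfl
  rw [h1]
  refine le_trans (h H hH) ?_
  rw [Nat.cast_le]
  refine Finset.card_le_card ?_
  intro c hc
  rw [Finset.mem_filter] at hc ⊢
  exact ⟨hc.1, loc1_of_loc hm he c hc.2⟩

open Classical in
/-- The count for coefficient families. -/
theorem fin_count (hA : S_MAINAG) (hB : S_MAINBG) (hT : S_TYPM)
    (hF : ∀ (K : Type) [NontriviallyNormedField K], S_FILLM K) (hm : ∀ i, 3 ≤ m i)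
    (he : ∀ i l l', e ⟨i, l⟩ % 2 = e ⟨i, l'⟩ % 2) (hn : 2 ≤ n) :
    (∃ c₀ : ℝ, 0 < c₀ ∧ ∀ᶠ H : ℕ in atTop, c₀ * ((bx n e H).card : ℝ) ≤
      (((bx n e H).filter (fun c => (∀ (K : Type) [Field K] [CharZero K], SmK (ic c K)) ∧
        ((∃ x z, IsP (ic c ℝ) x z) ∧ ∀ (p : ℕ) [Fact p.Prime], ∃ x z, IsP (ic c ℚ_[p]) x z))).card : ℝ)) ∧
    Tendsto (fun H : ℕ =>
      (((bx n e H).filter (fun c => (∀ (K : Type) [Field K] [CharZero K], SmK (ic c K)) ∧
        (∃ x z, IsP (ic c ℚ) x z))).card : ℝ) /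
      (((bx n e H).filter (fun c => (∀ (K : Type) [Field K] [CharZero K], SmK (ic c K)) ∧
        ((∃ x z, IsP (ic c ℝ) x z) ∧ ∀ (p : ℕ) [Fact p.Prime], ∃ x z, IsP (ic c ℚ_[p]) x z))).card : ℝ))
      atTop (𝓝 1) := by
  set T := typM hm e he un3 with hT'
  have hHPN : HPN T n := Pool.Agent.N546.PN.main n (Σ i : Fin r, Fin (m i)) e T hn (hp1_M hm he hA hT)
  obtain ⟨c₀, hc₀, H₀, hpos⟩ := Pool.Agent.N546.PN.pos' n (Σ i : Fin r, Fin (m i)) e T (by omega)
    (pp1_M hm he hB hT)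
  set Sm : ((k : Σ i : Fin r, Fin (m i)) → Mon n (e k + 1) → ℤ) → Prop :=
    fun c => ∀ (K : Type) [Field K] [CharZero K], SmK (ic c K) with hSm
  set So : ((k : Σ i : Fin r, Fin (m i)) → Mon n (e k + 1) → ℤ) → Prop :=
    fun c => ∀ (K : Type) [Field K] [CharZero K], Smo (ic c K) with hSo
  set LS : ((k : Σ i : Fin r, Fin (m i)) → Mon n (e k + 1) → ℤ) → Prop :=
    fun c => (∃ x z, IsP (ic c ℝ) x z) ∧ ∀ (p : ℕ) [Fact p.Prime], ∃ x z, IsP (ic c ℚ_[p]) x z with hLS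
  set RP : ((k : Σ i : Fin r, Fin (m i)) → Mon n (e k + 1) → ℤ) → Prop :=
    fun c => ∃ x z, IsP (ic c ℚ) x z with hRP
  have a1 : ∀ c, So c → Sm c := fun c h K _ _ => smK_of_smo _ (h K)
  have a2 : ∀ c, LocN T c → LS c := fun c h =>
    ⟨isP_of_pt hm he _ h.1, fun p hp => isP_of_pt hm he _ (h.2 p)⟩
  have a3 : ∀ c, So c → LS c → LocN T c := fun c h1 h2 =>
    ⟨pt_of_isP hm he (hF ℝ) sqo_real opn_real _ (h1 ℝ) h2.1, fun p hp =>
      pt_of_isP hm he (hF ℚ_[p]) (sqo_padic p) (opn_padic p) _ (h1 ℚ_[p]) (h2.2 p)⟩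
  have a4 : ∀ c, GlobN T c → RP c := fun c h => isP_of_pt hm he _ h
  have a5 : ∀ c, RP c → LS c := by
    rintro c ⟨x, z, hx, hz⟩
    have key : ∀ (K : Type) [Field K] [CharZero K], ∃ x z, IsP (ic c K) x z := by
      intro K _ _
      refine ⟨fun i => (x i : K), fun i l => (z i l : K), ?_, fun i => ⟨?_, ?_⟩⟩
      · intro h
        apply hx
        funext j
        have h3 := congrFun h j
        simpa using h3
      · intro h
        apply (hz i).1
        funext j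
        have h3 := congrFun h j
        simpa using h3
      · have h4 := congrArg (fun q : ℚ => (q : K)) (hz i).2
        unfold Pool.Agent.N546.PN.val ic at h4 ⊢
        push_cast at h4
        exact h4
    exact ⟨key ℝ, fun p hp => key ℚ_[p]⟩
  have hX : ∀ H : ℕ, (0 : ℝ) < ((bx n e H).card : ℝ) := fun H => by
    rw [card_bx]
    positivity
  have b1 : ∀ η : ℝ, 0 < η → ∀ᶠ H : ℕ in atTop,
      (((bx n e H).filter (fun c => ¬ So c)).card : ℝ) ≤ η * (bx n e H).card := by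
    intro η hη
    obtain ⟨H₁, h1⟩ := Pool.Agent.N546.PN.smo n (Σ i : Fin r, Fin (m i)) e η hη
    filter_upwards [eventually_ge_atTop H₁] with H hH
    rw [card_bx]
    convert h1 H hH
  have b2 : ∀ η : ℝ, 0 < η → ∀ᶠ H : ℕ in atTop,
      (((bx n e H).filter (fun c => LocN T c ∧ ¬ GlobN T c)).card : ℝ) ≤ η * (bx n e H).card := by
    intro η hη
    obtain ⟨H₁, h1⟩ := hHPN η hη
    filter_upwards [eventually_ge_atTop H₁] with H hH
    rw [card_bx]
    convert h1 H hH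
  have b3 : ∀ᶠ H : ℕ in atTop, c₀ / 2 * ((bx n e H).card : ℝ) ≤
      (((bx n e H).filter (fun c => Sm c ∧ LS c)).card : ℝ) := by
    filter_upwards [b1 (c₀ / 2) (by positivity), eventually_ge_atTop H₀] with H h1 hH
    have h2 := hpos H hH
    rw [← card_bx] at h2
    have h3 : ((bx n e H).filter (fun c => LocN T c)) ⊆
        ((bx n e H).filter (fun c => ¬ So c)) ∪ ((bx n e H).filter (fun c => Sm c ∧ LS c)) := by
      intro c hc
      rw [Finset.mem_filter] at hc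
      rw [Finset.mem_union, Finset.mem_filter, Finset.mem_filter]
      by_cases h : So c
      · exact Or.inr ⟨hc.1, a1 c h, a2 c hc.2⟩
      · exact Or.inl ⟨hc.1, h⟩
    have h4 := (Finset.card_le_card h3).trans (Finset.card_union_le _ _)
    have h5 : (((bx n e H).filter (fun c => LocN T c)).card : ℝ) ≤
        (((bx n e H).filter (fun c => ¬ So c)).card : ℝ) +
          (((bx n e H).filter (fun c => Sm c ∧ LS c)).card : ℝ) := by exact_mod_cast h4
    linarith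
  refine ⟨⟨c₀ / 2, by positivity, b3⟩, ?_⟩
  rw [Metric.tendsto_atTop']
  intro ε hε
  have b4 := (b3.and ((b1 (c₀ * ε / 8) (by positivity)).and (b2 (c₀ * ε / 8) (by positivity))))
  obtain ⟨H₁, hH₁⟩ := eventually_atTop.1 b4
  refine ⟨H₁, fun H hH => ?_⟩
  obtain ⟨h1, h2, h3⟩ := hH₁ H hH.le
  have hXH := hX H
  have hL : (0 : ℝ) < (((bx n e H).filter (fun c => Sm c ∧ LS c)).card : ℝ) :=
    lt_of_lt_of_le (by positivity) h1
  have hsub : ((bx n e H).filter (fun c => Sm c ∧ RP c)) ⊆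
      ((bx n e H).filter (fun c => Sm c ∧ LS c)) := by
    intro c hc
    rw [Finset.mem_filter] at hc ⊢
    exact ⟨hc.1, hc.2.1, a5 c hc.2.2⟩
  have hsub' : ((bx n e H).filter (fun c => Sm c ∧ LS c)) ⊆
      ((bx n e H).filter (fun c => Sm c ∧ RP c)) ∪ (((bx n e H).filter (fun c => ¬ So c)) ∪
        ((bx n e H).filter (fun c => LocN T c ∧ ¬ GlobN T c))) := by
    intro c hc
    rw [Finset.mem_filter] at hc
    rw [Finset.mem_union, Finset.mem_union, Finset.mem_filter, Finset.mem_filter, Finset.mem_filter]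
    by_cases g1 : RP c
    · exact Or.inl ⟨hc.1, hc.2.1, g1⟩
    · right
      by_cases g2 : So c
      · exact Or.inr ⟨hc.1, a3 c g2 hc.2.2, fun g3 => g1 (a4 c g3)⟩
      · exact Or.inl ⟨hc.1, g2⟩
  have h4 : ((((bx n e H).filter (fun c => Sm c ∧ RP c)).card : ℝ)) ≤
      (((bx n e H).filter (fun c => Sm c ∧ LS c)).card : ℝ) := by
    exact_mod_cast Finset.card_le_card hsub
  have h5 : (((bx n e H).filter (fun c => Sm c ∧ LS c)).card : ℝ) ≤
      (((bx n e H).filter (fun c => Sm c ∧ RP c)).card : ℝ) +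
        ((((bx n e H).filter (fun c => ¬ So c)).card : ℝ) +
        (((bx n e H).filter (fun c => LocN T c ∧ ¬ GlobN T c)).card : ℝ)) := by
    have h6 := (Finset.card_le_card hsub').trans ((Finset.card_union_le _ _).trans
      (Nat.add_le_add_left (Finset.card_union_le _ _) _))
    exact_mod_cast h6
  rw [Real.dist_eq, abs_sub_comm, abs_of_nonneg]
  · rw [sub_lt_comm, lt_div_iff₀ hL]
    have h7 : ε * (c₀ / 2 * ((bx n e H).card : ℝ)) ≤
        ε * (((bx n e H).filter (fun c => Sm c ∧ LS c)).card : ℝ) :=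
      mul_le_mul_of_nonneg_left h1 hε.le
    have h8 : 0 < c₀ * ε * ((bx n e H).card : ℝ) := by positivity
    nlinarith
  · rw [sub_nonneg, div_le_one hL]
    exact h4

end quadric

end Pool.Agent.U424.DQ
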