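import Mathlib
import Pool.Agent.U424.DQ.Stm
import Pool.Agent.N718.DC.Stm4

/-!
# Weak approximation for almost all diagonal quadric bundles (project DQW, helper424)

The parts of project DW (helper718, `Pool.Agent.N718.DC.Stm4`) for quadrics in `m i ≥ 3` variables.
-/

set_option autoImplicit false
set_option linter.all false

namespace Pool.Agent.U424.DQ

open Finset Pool.Agent.N718.DC

/-- The vector `z` is a nonzero solution of `∑ A_l z_l² = 0`. -/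
def OnQ {m : ℕ} {K : Type} [Field K] (A : Fin m → K) (z : Fin m → K) : Prop :=
  z ≠ 0 ∧ ∑ l, A l * z l ^ 2 = 0

/-- The point `(x, z)` lies on the fibre product of the quadric bundles, and no form vanishes at `x`. -/
def OnXM {r : ℕ} {m : Fin r → ℕ} {e : (Σ i : Fin r, Fin (m i)) → ℕ}
    (c : (k : Σ i : Fin r, Fin (m i)) → Fin (e k + 2) → ℤ) {K : Type} [Field K] (x : Fin 2 → K)
    (z : (i : Fin r) → Fin (m i) → K) : Prop :=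
  (∀ k, fmv (c k) (x 0) (x 1) ≠ 0) ∧ ∀ i, OnQ (fun l => fmv (c ⟨i, l⟩) (x 0) (x 1)) (z i)

/-- No form vanishes at `(x, y)` and the quadrics over this point have points. -/
def PSM {r : ℕ} {m : Fin r → ℕ} {e : (Σ i : Fin r, Fin (m i)) → ℕ}
    (c : (k : Σ i : Fin r, Fin (m i)) → Fin (e k + 2) → ℤ) {K : Type} [Field K] (x y : K) : Prop :=
  (∀ k, fmv (c k) x y ≠ 0) ∧ CM (fun k => fmv (c k) x y)

/-- Signs for which the quadrics have real points. -/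
def SSM {r : ℕ} {m : Fin r → ℕ} (s : (Σ i : Fin r, Fin (m i)) → ℤ) : Prop :=
  (∀ k, s k = 1 ∨ s k = -1) ∧ CM (fun k => (s k : ℝ))

/-- Part PADWM: a local point over `ℚ_p` of a family which is not degenerate is close to one over an
integral point at which the values of the forms have bounded valuations. -/
def S_PADWM : Prop := ∀ (r : ℕ) (m : Fin r → ℕ) (e : (Σ i : Fin r, Fin (m i)) → ℕ),
  (∀ i, 3 ≤ m i) → ∀ (p : ℕ) [Fact p.Prime] (N n : ℕ), N ≤ n →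
  ∀ c : (k : Σ i : Fin r, Fin (m i)) → Fin (e k + 2) → ℤ, ¬ padBad p n c →
    ∀ (x : Fin 2 → ℚ_[p]) (z : (i : Fin r) → Fin (m i) → ℚ_[p]), ‖x‖ = 1 → (∀ i, ‖z i‖ = 1) →
    OnXM c x z →
    ∃ a : Fin 2 → ℤ, (∀ j, ‖x j - (a j : ℚ_[p])‖ ≤ (((p : ℝ) ^ N))⁻¹) ∧
      (∀ k, ¬ ((p : ℤ) ^ (8 * n + 24) ∣ fm (c k) (a 0) (a 1))) ∧
      ∃ z' : (i : Fin r) → Fin (m i) → ℚ_[p], (∀ i j, ‖z i j - z' i j‖ ≤ (((p : ℝ) ^ N))⁻¹) ∧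
        OnXM c (fun j => ((a j : ℤ) : ℚ_[p])) z'

open Classical in
/-- Part GLUEWM: the local points are replaced by one integral base point. -/
def S_GLUEWM : Prop := ∀ (r : ℕ) (m : Fin r → ℕ) (e : (Σ i : Fin r, Fin (m i)) → ℕ), 1 ≤ r →
  (∀ i, 3 ≤ m i) → (∀ i l l', e ⟨i, l⟩ = e ⟨i, l'⟩) →
  ∀ (S : Finset Nat.Primes) (N W : ℕ) (n : ℕ → ℕ) (M : ℕ),
    M = ∏ p ∈ (Icc 1 W).filter Nat.Prime, p ^ (9 * n p + 26) → (∀ p ∈ S, (p : ℕ) ≤ W) →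
    (∀ p, N ≤ n p) → ∀ c : (k : Σ i : Fin r, Fin (m i)) → Fin (e k + 2) → ℤ,
    (∀ p : ℕ, p.Prime → p ≤ W → ¬ padBad p (n p) c) →
    ∀ (X : (p : Nat.Primes) → Fin 2 → ℚ_[(p : ℕ)])
      (Z : (p : Nat.Primes) → (i : Fin r) → Fin (m i) → ℚ_[(p : ℕ)]),
    (∀ p, OnXM c (X p) (Z p)) → (∀ p ∈ S, ‖X p‖ = 1 ∧ ∀ i, ‖Z p i‖ = 1) →
    ∃ a : Fin 2 → ℤ, (∀ p ∈ S, (∀ j, ‖X p j - (a j : ℚ_[(p : ℕ)])‖ ≤ ((((p : ℕ) : ℝ) ^ N))⁻¹) ∧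
        ∃ z' : (i : Fin r) → Fin (m i) → ℚ_[(p : ℕ)], OnXM c (fun j => ((a j : ℤ) : ℚ_[(p : ℕ)])) z' ∧
          ∀ i j, ‖Z p i j - z' i j‖ ≤ ((((p : ℕ) : ℝ) ^ N))⁻¹) ∧
      (∀ p : ℕ, p.Prime → p ≤ W → ∀ k, ¬ ((p : ℤ) ^ (8 * n p + 24) ∣ fm (c k) (a 0) (a 1))) ∧
      ∀ (p : ℕ) [Fact p.Prime], p ≤ W → PSM c ((a 0 : ℤ) : ℚ_[p]) ((a 1 : ℤ) : ℚ_[p])

/-- Part TRWM: local points move with the coefficients and the base point. -/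
def S_TRWM : Prop := ∀ (r : ℕ) (m : Fin r → ℕ) (e : (Σ i : Fin r, Fin (m i)) → ℕ) (p : ℕ)
  [Fact p.Prime] (n : ℕ)
  (c c' : (k : Σ i : Fin r, Fin (m i)) → Fin (e k + 2) → ℤ) (a a' : Fin 2 → ℤ),
  (∀ k j, (p : ℤ) ^ (9 * n + 26) ∣ c k j - c' k j) → (∀ j, (p : ℤ) ^ (9 * n + 26) ∣ a j - a' j) →
  (∀ k, ¬ ((p : ℤ) ^ (8 * n + 24) ∣ fm (c k) (a 0) (a 1))) →
  (∀ k, ¬ ((p : ℤ) ^ (8 * n + 24) ∣ fm (c' k) (a' 0) (a' 1))) ∧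
  ∀ z : (i : Fin r) → Fin (m i) → ℚ_[p], (∀ i, ‖z i‖ ≤ 1) →
    OnXM c (fun j => ((a j : ℤ) : ℚ_[p])) z →
    ∃ z' : (i : Fin r) → Fin (m i) → ℚ_[p], OnXM c' (fun j => ((a' j : ℤ) : ℚ_[p])) z' ∧
      ∀ i j, ‖z i j - z' i j‖ ≤ ((p : ℝ) ^ n)⁻¹

/-- Part RDWM: for families which are not nearly degenerate every real point is close to real points over
one of finitely many intervals. -/
def S_RDWM : Prop := ∀ (r : ℕ) (m : Fin r → ℕ) (e : (Σ i : Fin r, Fin (m i)) → ℕ), 1 ≤ r →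
  (∀ i, 3 ≤ m i) → (∀ i l l', e ⟨i, l⟩ = e ⟨i, l'⟩) →
  ∀ (ε δ : ℝ), 0 < ε → 0 < δ →
  ∃ Z : Finset (ℝ × ℝ), (∀ w ∈ Z, w.1 < w.2) ∧ ∀ H : ℕ, 1 ≤ H → ∀ c ∈ BXI e H, ¬ rBad (δ * H) c →
    ∀ (x : Fin 2 → ℝ) (z : (i : Fin r) → Fin (m i) → ℝ), OnXM c x z →
    ∃ w ∈ Z, ∃ s : (Σ i : Fin r, Fin (m i)) → ℤ,
      SSM s ∧ (∀ k, ∀ t : ℝ, w.1 < t → t < w.2 → 0 < (s k : ℝ) * fmv (c k) 1 t) ∧
      ∀ t : ℝ, w.1 < t → t < w.2 → Near ε x ![1, t] ∧ ∀ i, ∃ z' : Fin (m i) → ℝ,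
        OnQ (fun l => fmv (c ⟨i, l⟩) (1 : ℝ) t) z' ∧ Near ε (z i) z'

/-- Part CWAM: weak approximation for diagonal quadrics with a rational point. -/
def S_CWAM : Prop := ∀ (m : ℕ), 3 ≤ m → ∀ (A : Fin m → ℚ), (∀ l, A l ≠ 0) → SolM A →
  ∀ (S : Finset Nat.Primes) (Z : (p : Nat.Primes) → Fin m → ℚ_[(p : ℕ)]) (ZR : Fin m → ℝ),
  (∀ p ∈ S, OnQ (fun l => (A l : ℚ_[(p : ℕ)])) (Z p)) → OnQ (fun l => (A l : ℝ)) ZR →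
  ∀ ε : ℝ, 0 < ε →
  ∃ z : Fin m → ℚ, OnQ A z ∧ (∀ p ∈ S, Near ε (Z p) (fun j => (z j : ℚ_[(p : ℕ)]))) ∧
    Near ε ZR (fun j => (z j : ℝ))

/-- Weak approximation to precision `1 / M` at the real place and at the primes up to `M`. -/
def WApM {r : ℕ} {m : Fin r → ℕ} {e : (Σ i : Fin r, Fin (m i)) → ℕ} (M : ℕ)
    (c : (k : Σ i : Fin r, Fin (m i)) → Fin (e k + 2) → ℤ) : Prop :=
  ∀ (X : (p : Nat.Primes) → Fin 2 → ℚ_[(p : ℕ)])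
    (Z : (p : Nat.Primes) → (i : Fin r) → Fin (m i) → ℚ_[(p : ℕ)])
    (XR : Fin 2 → ℝ) (ZR : (i : Fin r) → Fin (m i) → ℝ), (∀ p, OnXM c (X p) (Z p)) → OnXM c XR ZR →
    ∃ (x : Fin 2 → ℚ) (z : (i : Fin r) → Fin (m i) → ℚ), OnXM c x z ∧
      (∀ p : Nat.Primes, (p : ℕ) ≤ M → Near (1 / (M : ℝ)) (X p) (fun j => (x j : ℚ_[(p : ℕ)])) ∧
        ∀ i, Near (1 / (M : ℝ)) (Z p i) (fun j => (z i j : ℚ_[(p : ℕ)]))) ∧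
      Near (1 / (M : ℝ)) XR (fun j => (x j : ℝ)) ∧
        ∀ i, Near (1 / (M : ℝ)) (ZR i) (fun j => (z i j : ℝ))

open Classical in
/-- Part MAINWM: weak approximation for almost all families. -/
def S_MAINWM : Prop := ∀ (r : ℕ) (m : Fin r → ℕ) (e : (Σ i : Fin r, Fin (m i)) → ℕ), 1 ≤ r →
  (∀ i, 3 ≤ m i) → (∀ i l l', e ⟨i, l⟩ = e ⟨i, l'⟩) →
  ∀ (M : ℕ) (η : ℝ), 1 ≤ M → 0 < η → ∃ H₀ : ℕ, ∀ H : ℕ, H₀ ≤ H →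
    (((BXI e H).filter (fun c => ¬ WApM M c)).card : ℝ) ≤ η * ((2 * H + 1 : ℕ) : ℝ) ^ ncI e

end Pool.Agent.U424.DQ
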