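import Mathlib
import Pool.Agent.U424.DQ.All
import Pool.Agent.U424.DQ.StmN
import Pool.Agent.N546.PN.All
import Pool.Agent.N546.PN.Stm3
import Pool.Agent.N126.PW.SQW
import Pool.Agent.N136.PW.Linw
import Pool.Agent.U319.DQ.CWAM
import Pool.Agent.U129.DQ.FILM
import Pool.Agent.U356.DQ.LOCWM
import Pool.Agent.U424.DQ.Rw
import Pool.Agent.U898.DQ.PADNM
import Pool.Agent.U140.DQ.NRMM
import Pool.Agent.U594.DQ.GLUNM
import Pool.Agent.U460.DQ.MAINNM

/-!
# Assembly of project DQN (helper424)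
-/

set_option autoImplicit false

namespace Pool.Agent.U424.DQ

theorem film (K : Type) [NontriviallyNormedField K] : S_FILM K := Pool.Agent.U129.DQ.film_ K
theorem locwm_real : S_LOCWM ℝ :=
  Pool.Agent.U356.DQ.locwm_ ℝ Pool.Agent.N126.PW.sqw_real Pool.Agent.N546.PN.opn_real (film ℝ)
theorem locwm_padic (p : ℕ) [Fact p.Prime] : S_LOCWM ℚ_[p] :=
  Pool.Agent.U356.DQ.locwm_ ℚ_[p] (Pool.Agent.N126.PW.sqw_padic p) (Pool.Agent.N546.PN.opn_padic p)
    (film ℚ_[p])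
theorem realwm : S_REALWM :=
  Pool.Agent.U424.DQ.Rw.realwm_ Pool.Agent.N546.PN.del Pool.Agent.N546.PN.smr locwm_real
theorem padnm : S_PADNM :=
  Pool.Agent.U898.DQ.padnm_ Pool.Agent.N546.PN.del Pool.Agent.N546.PN.smp locwm_padic
theorem glunm : S_GLUNM := Pool.Agent.U594.DQ.glunm_ Pool.Agent.U319.DQ.cwam_
theorem mainnm : S_MAINNM := Pool.Agent.U460.DQ.mainnm_ Pool.Agent.N546.PN.lin
  Pool.Agent.N546.PN.tail Pool.Agent.N546.PN.lsol Pool.Agent.N546.PN.cho Pool.Agent.N546.PN.padn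
  realwm padnm (Pool.Agent.N136.PW.linw_ Pool.Agent.N546.PN.push) glunm
  (fun n r d e he m hm c h => Pool.Agent.U140.DQ.nrmm_ n r d e he m hm c h) mainag typm

end Pool.Agent.U424.DQ
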