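import Mathlib
import Pool.Agent.U424.DQ.Fin
import Pool.Agent.U424.DQ.StmN

/-!
# Weak approximation for diagonal quadric bundles over projective spaces: end of project DQN (helper424)
-/

set_option autoImplicit false
set_option linter.all false

namespace Pool.Agent.U424.DQ

open Finset Filter Topology
open Pool.Agent.N546.PN (Typ Mon val dval ic bx sz Pt LocN GlobN Smo HPN PPN HP1 PP1 Pt1 Loc1 Glob1
  bval sz1 bx1 S_UN3 un3 S_SQO S_OPN sqo_real sqo_padic opn_real opn_padic card_bx bval_eq)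

lemma ratio_tendsto (A B X : ℕ → ℝ) (hX : ∀ H, 0 < X H) (c₀ : ℝ) (hc₀ : 0 < c₀)
    (h1 : ∀ᶠ H in atTop, c₀ * X H ≤ B H) (h2 : ∀ H, A H ≤ B H)
    (h3 : ∀ η : ℝ, 0 < η → ∀ᶠ H in atTop, B H ≤ A H + η * X H) :
    Tendsto (fun H => A H / B H) atTop (𝓝 1) := by
  rw [Metric.tendsto_atTop']
  intro ε hε
  obtain ⟨H₁, hH₁⟩ := eventually_atTop.1 (h1.and (h3 (c₀ * ε / 2) (by positivity)))
  refine ⟨H₁, fun H hH => ?_⟩
  obtain ⟨g1, g2⟩ := hH₁ H hH.le
  have hXH := hX H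
  have hL : 0 < B H := lt_of_lt_of_le (by positivity) g1
  rw [Real.dist_eq, abs_sub_comm, abs_of_nonneg]
  · rw [sub_lt_comm, lt_div_iff₀ hL]
    have h7 : ε * (c₀ * X H) ≤ ε * B H := mul_le_mul_of_nonneg_left g1 hε.le
    have h8 : 0 < c₀ * ε * X H := by positivity
    nlinarith
  · rw [sub_nonneg, div_le_one hL]
    exact h2 H

variable {n r : ℕ} {m : Fin r → ℕ} {e : (Σ i : Fin r, Fin (m i)) → ℕ}

open Classical in
/-- The count for coefficient families. -/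
theorem fin_countW (hA : S_MAINAG) (hB : S_MAINBG) (hT : S_TYPM)
    (hF : ∀ (K : Type) [NontriviallyNormedField K], S_FILLM K) (hN : S_MAINNM)
    (hm : ∀ i, 3 ≤ m i) (he : ∀ i l l', e ⟨i, l⟩ = e ⟨i, l'⟩) (hn : 2 ≤ n) (M : ℕ) (hM : 1 ≤ M) :
    Tendsto (fun H : ℕ =>
      (((bx n e H).filter (fun c => (∀ (K : Type) [Field K] [CharZero K], SmK (ic c K)) ∧
        ((∃ x z, IsP (ic c ℝ) x z) ∧ ∀ (p : ℕ) [Fact p.Prime], ∃ x z, IsP (ic c ℚ_[p]) x z) ∧
          WAmM M c)).card : ℝ) /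
      (((bx n e H).filter (fun c => (∀ (K : Type) [Field K] [CharZero K], SmK (ic c K)) ∧
        ((∃ x z, IsP (ic c ℝ) x z) ∧ ∀ (p : ℕ) [Fact p.Prime], ∃ x z, IsP (ic c ℚ_[p]) x z))).card : ℝ))
      atTop (𝓝 1) := by
  have hpar : ∀ i l l', e ⟨i, l⟩ % 2 = e ⟨i, l'⟩ % 2 := fun i l l' => by rw [he i l l']
  obtain ⟨⟨c₀, hc₀, hpos⟩, _⟩ := fin_count (n := n) (r := r) (m := m) (e := e) hA hB hT hF hm hpar hn
  set T := typM hm e hpar un3 with hT'
  set Sm : ((k : Σ i : Fin r, Fin (m i)) → Mon n (e k + 1) → ℤ) → Prop :=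
    fun c => ∀ (K : Type) [Field K] [CharZero K], SmK (ic c K) with hSm
  set So : ((k : Σ i : Fin r, Fin (m i)) → Mon n (e k + 1) → ℤ) → Prop :=
    fun c => ∀ (K : Type) [Field K] [CharZero K], Smo (ic c K) with hSo
  set LS : ((k : Σ i : Fin r, Fin (m i)) → Mon n (e k + 1) → ℤ) → Prop :=
    fun c => (∃ x z, IsP (ic c ℝ) x z) ∧ ∀ (p : ℕ) [Fact p.Prime], ∃ x z, IsP (ic c ℚ_[p]) x z with hLS
  have a3 : ∀ c, So c → LS c → LocN T c := fun c h1 h2 =>
    ⟨pt_of_isP hm hpar (hF ℝ) sqo_real opn_real _ (h1 ℝ) h2.1, fun p hp =>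
      pt_of_isP hm hpar (hF ℚ_[p]) (sqo_padic p) (opn_padic p) _ (h1 ℚ_[p]) (h2.2 p)⟩
  have b1 : ∀ η : ℝ, 0 < η → ∀ᶠ H : ℕ in atTop,
      (((bx n e H).filter (fun c => ¬ So c)).card : ℝ) ≤ η * (bx n e H).card := by
    intro η hη
    obtain ⟨H₁, h1⟩ := Pool.Agent.N546.PN.smo n (Σ i : Fin r, Fin (m i)) e η hη
    filter_upwards [eventually_ge_atTop H₁] with H hH
    rw [card_bx]
    convert h1 H hH
  have b2 : ∀ η : ℝ, 0 < η → ∀ᶠ H : ℕ in atTop,
      (((bx n e H).filter (fun c => LocN T c ∧ ¬ WAmM M c)).card : ℝ) ≤ η * (bx n e H).card := by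
    intro η hη
    obtain ⟨H₁, h1⟩ := hN n r m hm e he un3 M hn hM η hη
    filter_upwards [eventually_ge_atTop H₁] with H hH
    rw [card_bx]
    convert h1 H hH
  refine ratio_tendsto _ _ (fun H => ((bx n e H).card : ℝ)) (fun H => ?_) c₀ hc₀ hpos
    (fun H => ?_) (fun η hη => ?_)
  · rw [card_bx]
    positivity
  · refine Nat.cast_le.2 (Finset.card_le_card ?_)
    intro c hc
    rw [Finset.mem_filter] at hc ⊢
    exact ⟨hc.1, hc.2.1, hc.2.2.1⟩
  · filter_upwards [b1 (η / 2) (by positivity), b2 (η / 2) (by positivity)] with H h1 h2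
    have hsub' : ((bx n e H).filter (fun c => Sm c ∧ LS c)) ⊆
        ((bx n e H).filter (fun c => Sm c ∧ LS c ∧ WAmM M c)) ∪
          (((bx n e H).filter (fun c => ¬ So c)) ∪
          ((bx n e H).filter (fun c => LocN T c ∧ ¬ WAmM M c))) := by
      intro c hc
      rw [Finset.mem_filter] at hc
      rw [Finset.mem_union, Finset.mem_union, Finset.mem_filter, Finset.mem_filter, Finset.mem_filter]
      by_cases g1 : WAmM M c
      · exact Or.inl ⟨hc.1, hc.2.1, hc.2.2, g1⟩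
      · right
        by_cases g2 : So c
        · exact Or.inr ⟨hc.1, a3 c g2 hc.2.2, g1⟩
        · exact Or.inl ⟨hc.1, g2⟩
    have h5 : (((bx n e H).filter (fun c => Sm c ∧ LS c)).card : ℝ) ≤
        (((bx n e H).filter (fun c => Sm c ∧ LS c ∧ WAmM M c)).card : ℝ) +
          ((((bx n e H).filter (fun c => ¬ So c)).card : ℝ) +
          (((bx n e H).filter (fun c => LocN T c ∧ ¬ WAmM M c)).card : ℝ)) := by
      have h6 := (Finset.card_le_card hsub').trans ((Finset.card_union_le _ _).trans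
        (Nat.add_le_add_left (Finset.card_union_le _ _) _))
      exact_mod_cast h6
    have h7 : (((bx n e H).filter (fun c => Sm c ∧ LS c)).card : ℝ) ≤
        (((bx n e H).filter (fun c => Sm c ∧ LS c ∧ WAmM M c)).card : ℝ) +
          η * ((bx n e H).card : ℝ) := by linarith
    exact h7

end Pool.Agent.U424.DQ
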